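import Pool.Agent.Run7.h702.ZF

/-!
# The index of the Fitting subgroup and the zeros in the rows of the character table

For every finite group `G` and every solvable normal subgroup `R` of `G`, the index of the Fitting
subgroup is bounded in terms of the largest number of zeros in a row of the character table and of
the index of `R`.
-/

set_option autoImplicit false

namespace Pool.Agent.Results.MP_ad7422_al.FittingIndexRadical

/-- `F` is the Fitting subgroup: the largest normal nilpotent subgroup. -/
def IsFitting {G : Type} [Group G] (F : Subgroup G) : Prop :=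
  F.Normal ∧ Group.IsNilpotent F ∧
    ∀ N : Subgroup G, N.Normal → Group.IsNilpotent N → N ≤ F

/-- The number of conjugacy classes on which `χ` takes the value `0`. -/
noncomputable def zeros {G : Type} [Group G] (χ : G → ℂ) : ℕ :=
  {c : ConjClasses G | ∀ g : G, ConjClasses.mk g = c → χ g = 0}.ncard

/-- The irreducible complex characters of `G`. -/
def Irr (G : Type) [Group G] : Set (G → ℂ) :=
  {χ | ∃ V : FDRep ℂ G, CategoryTheory.Simple V ∧ V.character = χ}

/-- There is a function `f` such that in every finite group `G` in which each irreducible character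
vanishes on at most `m` conjugacy classes, the Fitting subgroup has index at most `f m |G : R|`,
for every solvable normal subgroup `R` of `G`. -/
theorem result : ∃ f : ℕ → ℕ → ℕ, ∀ (G : Type) [Group G] [Finite G] (m : ℕ),
    (∀ χ ∈ Irr G, zeros χ ≤ m) →
    ∀ F R : Subgroup G, IsFitting F → R.Normal → Group.IsSolvable R →
      F.index ≤ f m R.index := by
  choose b hb using fun c m => Run7.h702.ZF.index_bound c m
  refine ⟨fun m c => b c m, ?_⟩
  intro G _ _ m hm F R hF hR hRs
  have hZ : Pool.Agent.K3h10.MS.ZB G m := by
    apply Pool.Agent.K3h10.MS.ZB_of_FDRep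
    intro V hV
    have h1 := hm V.character ⟨V, hV, rfl⟩
    have h2 : {c : ConjClasses G | ∀ g : G, ConjClasses.mk g = c → V.character g = 0} =
        {c : ConjClasses G | ∃ g : G, ConjClasses.mk g = c ∧ V.character g = 0} := by
      ext c
      constructor
      · intro h
        obtain ⟨g, rfl⟩ := ConjClasses.exists_rep c
        exact ⟨g, rfl, h g rfl⟩
      · rintro ⟨g, rfl, hg⟩ g' hg'
        obtain ⟨t, ht⟩ := isConj_iff.1 (ConjClasses.mk_eq_mk_iff_isConj.1 hg')
        rw [← hg, ← ht, FDRep.char_conj]
    rw [zeros, h2, ← Nat.card_coe_set_eq] at h1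
    exact h1
  have h := hb R.index m G R hR hRs le_rfl hZ
  obtain ⟨h1, h2, h3⟩ := Pool.Agent.K3h10.MS.fitting_spec G
  have h4 : F = Pool.Agent.Helper218.NV.fitting G :=
    le_antisymm (h3 F hF.1 hF.2.1) (hF.2.2 _ h1 h2)
  rw [h4]
  exact h

end Pool.Agent.Results.MP_ad7422_al.FittingIndexRadical
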